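import Pool.Agent.K3h34.BF.Res
import Pool.Agent.K3h7.BF.Diff
import Pool.Agent.K3h16.BF.SLF
import Pool.Agent.K3h16.BF.VERT
import Pool.Agent.K3h17.BF.VAL
import Pool.Agent.K3h33.BF.Gam
import Pool.Agent.K3h43.BF.Log
import Pool.Agent.K3h58.BF.Adj
import Pool.Agent.K3h58.BF.TransSteps
import Pool.Agent.K3h67.BF.Ibp
import Pool.Agent.K3h85.BF.Dens
import Pool.Agent.K3h85.BF.Ex
import Pool.Agent.K3h85.BF.Hom
import Pool.Agent.K3h85.BF.Mob

set_option autoImplicit false

/-! # The monodromy conjecture for discriminants of binary forms with marked points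

The space `ℂ ^ (n + 1)` of the binary forms `h = a_n X ^ n + a_(n-1) X ^ (n-1) Y + ⋯ + a_0 Y ^ n` of degree
`n`, or of the polynomials `h = a_n T ^ n + ⋯ + a_0` of degree `≤ n`, carries the discriminant `D` (`IsDiscB`;
it is homogeneous of degree `2 n - 2`, and for `h = t ∏ (T - x_i)` it is
`t ^ (2 n - 2) ∏_{i<j} (x_j - x_i) ^ 2`) and, for `w ∈ ℂ`, the linear form `h(w)` (`hv n w`). Let

  `f = D ^ a * ∏ j, h(z_j) ^ (b_j)`,   `a ≥ 1`, `b_j ≥ 1`, `z_1, …, z_r` distinct points, `r ≥ 0`.

By a linear substitution of `X, Y` every product of powers of the discriminant and of the linear forms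
`h ↦ h(p)`, `p` in a finite subset of `ℙ ^ 1`, has this form. The zero set of `f` in `ℙ ^ n` consists of
the divisors of degree `n` on `ℙ ^ 1` which are not reduced or contain one of the `r` marked points.
`f` depends on `r - 3` continuous parameters (the cross-ratios), and it is homogeneous of degree
`N = (2 n - 2) a + ∑ b_j`.

The topological zeta function. Blow up the origin. The exceptional divisor `E_0 = ℙ ^ n` has the
numbers `(n + 1, N)`. Near a point of `E_0`, that is, near a form `h ≠ 0` with roots in `ℙ ^ 1` of the
multiplicities `m_1, m_2, …`, `f` is the product of the power `N` of the equation of `E_0`, of the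
functions `F ^ a h(z_j) ^ b_j` (or `F ^ a`) on the spaces of monic polynomials of the degrees `m_i`, in
separate variables, and of a unit. These have the wonderful models described in `DiscriminantPowers`,
with the divisors for the clusters of `m ≤ n` roots with the numbers
`(ν, N) = ((m - 1) (m + 2) / 2, a m (m - 1))`, `m ≥ 2`, and, for the clusters at a marked point `z_j`,
`(m (m + 1) / 2, a m (m - 1) + b_j m)`, `m ≥ 1`. So the topological zeta function of `f` (the local one at
the origin, which is also the global one, because of the action of `ℂ^*`) is a linear combination of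
products of the factors `1 / (N s + ν)` for these pairs and the pair `(n + 1, N)`. If `r = 1` or `r = 2`,
there is an action of a torus of dimension two on `ℂ ^ (n + 1)` for which `f` is semi-invariant (put the
marked points to `0`, `∞`); one can use the weighted blow-ups of the origin with different weights, and
sees that `(n + 1, N)` contributes no pole, unless its number is also one of the numbers of the clusters
(for `r = 2`, `b_1 = b_2`, it is the number of the clusters of all the roots at `z_j`). So in the
statement this factor appears only for `r ≥ 3`, and for `r = 0`, `n ≥ 3` (`mulM`). In the remaining case `r = 0`,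
`n = 2`, which is classical, `f` is a power of a nondegenerate quadratic form in three variables. The
coefficients in the statement are arbitrary (`Zt`).

For `r ≥ 3` and general `a, b_j` the number `-(n + 1) / N` is not one of the numbers of the clusters; the
complement of `{f = 0}` in `ℙ ^ n` has the Euler characteristic `(-1) ^ n binom(n + r - 3, n) ≠ 0`.

The roots of the b-functions. A functional equation of the homogeneous polynomial `f` gives one of its
restriction to `a_n = 1`, to which the results on the monic polynomials (`DiscriminantPowers`) apply: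
this gives the roots which belong to the clusters. For the origin, let `r ≥ 3`, and choose the
coordinate of `ℙ ^ 1` such that one marked point is `∞` and that there is no marked point in the
interior of the segment `S` between two other ones (`StmMob`). Let `K` be the set of the monic `h` with `n`
different roots in `S`. On the slice `a_n = 1`, put `T_s(g) = ∫_K f ^ s g` for `Re s > 0` (the branch of
`f ^ s` exists, as the other marked points are not in `S`), and on the cone over `K`, with the weight
`exp(-a_n)`, `Λ_s(g) = Γ(N s + deg g + n + 1) T_s(g)`. The functional equation, applied `k` times, and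
partial integration give, first for large real `s`,

  `c(s) c(s + 1) ⋯ c(s + k - 1) Λ_s(v) = ∑_i s ^ i Λ_{s + k}(B_i v)`

for every form `v`, with linear maps `B_i` (`StmFE`). Let `deg v = k' N`, with `v` divisible by a large
power of `D` and of the `h(z)` of the end points of `S`, so that `T_s(v)` converges near
`s^* = -(n + 1) / N - k'`. At `s^*` the factor `Γ(N s + k' N + n + 1)` has a pole, and the right side is
regular if `k` is large. So `c(s^*) ⋯ c(s^* + k - 1) T_{s^*}(v) = 0`. As one of the marked points is `∞`, the
power of `a_n` in `f` leaves room for arbitrary symmetric polynomials in the roots as factors of `v`;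
by the theorem of Weierstrass, `T_{s^*}(v) ≠ 0` for some `v`. -/

namespace Pool.Agent.Results.MP_a2a574_ag.BinaryForms

open Pool.Agent.K3h15.DM Pool.Agent.K3h15.BF Pool.Agent.H628R4.TP Pool.Agent.K3h34.BF

/-- **The monodromy conjecture holds for `f = D ^ a * ∏ j, h(z_j) ^ b_j`**, where `D` is the
discriminant of the forms `h` of degree `n`. Let `c` satisfy a functional equation
`c(s) f ^ s = P(s) f ^ (s + 1)`, for instance, let `c` be the Bernstein-Sato polynomial of `f`.
(1) The numbers `-(1 / 2 + 1 / m + i) / a`, `2 ≤ m ≤ n`, `0 ≤ i < a`, are roots of `c`. (2) The numbers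
`-((m + 1) / 2 + i (m - 1) + i') / (a (m - 1) + b_j)`, where `1 ≤ m ≤ n`, `0 ≤ i ≤ a`, `0 ≤ i' ≤ b_j` and
`i' < b_j` or `m ≥ 2`, `i < a`, are roots of `c`. (3) If there are at least three marked points, then
`-(n + 1) / N + k` is a root of `c` for some integer `k`. (4) For every pole `s₀` of the topological zeta
function of `f`, which is a linear combination of products of the factors `1 / (N s + ν)` (the
coefficients may be arbitrary), `s₀ + k` is a root of `c` for some integer `k`; if there are at most two
marked points, then `s₀` itself is a root of `c`. By the theorem of Malgrange and Kashiwara,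
`exp(2 π i s₀)` is then a monodromy eigenvalue of `f`. (The polynomial `D` exists and is unique.) -/
theorem result (n : ℕ) (hn : 1 ≤ n) : (∃! D : MvPolynomial (Fin (n + 1)) ℂ, IsDiscB n D) ∧
    ∀ D : MvPolynomial (Fin (n + 1)) ℂ, IsDiscB n D → ∀ (a r : ℕ) (z : Fin r → ℂ) (b : Fin r → ℕ),
    1 ≤ a → Function.Injective z → (∀ j, 1 ≤ b j) → ∀ c : Polynomial ℂ,
    IsBFunction (D ^ a * ∏ j, hv n (z j) ^ b j) c →
    (∀ m i : ℕ, 2 ≤ m → m ≤ n → i < a → c.eval (-(1 / 2 + 1 / (m : ℂ) + i) / a) = 0) ∧
    (∀ (j : Fin r) (m i i' : ℕ), 1 ≤ m → m ≤ n → i ≤ a → i' ≤ b j →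
      (i' < b j ∨ (2 ≤ m ∧ i < a)) →
      c.eval (-(((m : ℂ) + 1) / 2 + i * (m - 1) + i') / (a * (m - 1) + b j)) = 0) ∧
    (3 ≤ r → ∃ k : ℤ, c.eval (-((n : ℂ) + 1) / ((2 * n - 2 : ℕ) * a + ∑ j, b j : ℕ) + k) = 0) ∧
    ∀ (χ : (Option (Fin (n - 1) ⊕ (Fin r × Fin n)) → ℕ) →₀ ℂ) (s₀ : ℂ),
      (Zt (nuM n r) (mulM n r a b) χ).denom.eval s₀ = 0 →
      (∃ k : ℤ, c.eval (s₀ + k) = 0) ∧ (r ≤ 2 → c.eval s₀ = 0) := by
  have hHom : StmHom := Pool.Agent.K3h85.BF.t_Hom
  have hVal : StmVal := Pool.Agent.K3h17.BF.t_Val
  have hDiff : StmDiff := Pool.Agent.K3h7.BF.t_Diff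
  have hOrig : StmOrig := t_Orig
    (Pool.Agent.K3h16.BFVERT.t_VERT Pool.Agent.K3h58.BF2.t_FE Pool.Agent.K3h33.BF.t_Gam)
    (Pool.Agent.K3h16.BFSLF.t_SLF Pool.Agent.K3h67.BF.t_Ibp hDiff) hDiff hVal
    (Pool.Agent.K3h43.BF.t_Log hVal) Pool.Agent.K3h85.BF.t_Dens hHom
  have hMob : StmMob := Pool.Agent.K3h85.BF.t_Mob hHom
  refine ⟨Pool.Agent.K3h85.BF.t_Ex n hn, fun D hD a r z b ha hz hb c hc => ?_⟩
  obtain ⟨h1, h2⟩ := roots12 hHom hn hD a r z b ha hz hb c hc
  have h3 : 3 ≤ r → ∃ k : ℤ,
      c.eval (-((n : ℂ) + 1) / ((2 * n - 2 : ℕ) * a + ∑ j, b j : ℕ) + k) = 0 := fun hr =>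
    vertex hMob Pool.Agent.K3h58.BF2.t_Trans hOrig hn hD ha hr hz hb hc
  exact ⟨h1, h2, h3, fun χ s₀ hs => poles a r b ha hb c h1 h2 h3 χ s₀ hs⟩

end Pool.Agent.Results.MP_a2a574_ag.BinaryForms
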