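import Pool.Agent.K3h15.DM.Roots
import Pool.Agent.K3h15.DM.Disc
import Pool.Agent.K3h15.DM.Zeta
import Pool.Agent.K3h15.DM.DD
import Pool.Agent.K3h15.DM.Exp
import Pool.Agent.K3h15.DM.Fun
import Pool.Agent.K3h15.DM.Mat
import Pool.Agent.K3h15.DM.Pol
import Pool.Agent.K3h15.DM.V1
import Pool.Agent.K3h15.DM.V2
import Pool.Agent.K3h7.DM.Adj

set_option autoImplicit false

/-! # The monodromy conjecture for powers of the discriminant times powers of the values at points

The affine space `ℂ ^ n` of the monic polynomials `h = T ^ n + a_{n-1} T ^ (n-1) + ⋯ + a_0` carries the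
discriminant `F = disc h` (`IsDisc`: the polynomial in the `a_j` which for `h = ∏ (T - x_i)` is
`∏_{i<j} (x_j - x_i) ^ 2`), whose zero set is the set of the `h` with a multiple root, and for every
`w ∈ ℂ` the affine linear form `h(w)` (`hz n w`), whose zero set is the hyperplane tangent to `{F = 0}`
(for `n ≥ 2`) of the `h` with the root `w`. Let

  `f = F ^ a * ∏ j, h(z_j) ^ (b_j)`,   `a ≥ 1`, `b_j ≥ 1`, `z_1, …, z_r` distinct points, `r ≥ 0`.

The singularities of `f` are far from being isolated, nondegenerate or normal crossings: near an `h`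
with roots of the multiplicities `m_1, m_2, …`, the zero set is the product of the discriminants
of degree `m_i`, with the tangent hyperplane for the roots among the `z_j`.

The topological zeta function. Let `x_1, …, x_n` be the roots. The wonderful model `W` (De Concini–
Procesi, Fulton–MacPherson) of the arrangement of the `x_i = x_j`, `x_i = z_j` in `ℂ ^ n` has the
exceptional divisors `E_I` (`2 ≤ |I|`: the `x_i`, `i ∈ I`, come together) and `E_(j,I)` (`1 ≤ |I|`: the
`x_i`, `i ∈ I`, tend to `z_j`), which cross normally. The map from `W` to the space of the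
polynomials `h` is the quotient map by `S_n` followed by a proper birational map. Along `E_I`,
`|I| = m`, `f` has the multiplicity `N = a m (m - 1)`, and the pull back of `da_0 ∧ ⋯ ∧ da_{n-1}`
(`± ∏_{i<j} (x_i - x_j) dx_1 ∧ ⋯ ∧ dx_n`) has the multiplicity `ν - 1`, `ν = (m - 1) (m + 2) / 2`; along
`E_(j,I)` these are `N = a m (m - 1) + b_j m` and `ν = m (m + 1) / 2`. So, by the change of variables
formula for the finite quotient maps (Denef–Loeser), or by computing the integrals of `|f| ^ s` over the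
`p`-adic polynomials `h` (one splits `h` according to the clusters of its roots, and the homothety
`T ↦ p T` multiplies the part of the integral which belongs to a cluster of `m` roots by
`p ^ (-ν - N s)`), the topological zeta function of `f` is a linear combination of products of the
factors `1 / (N s + ν)`; in the statement the coefficients are arbitrary (`Zt`). For instance, for
`m = 2` the divisor `E_I` is the ramification divisor and its image is the strict transform of
`{F = 0}`, with the numbers `(ν, N) = (1, a)` in place of `(2, 2 a)`.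

The roots of the b-functions. Let `G` be the integral against `exp(-∑ x_i / l) dx` over the chamber
`0 < x_1 < ⋯ < x_n` and `Δ = ∏_{i<j} (x_j - x_i)`. In the coordinates `a_j` of the polynomial with
the roots `z + x_i` the functional `g ↦ G(Δ g)` satisfies the rules of partial integration for `g`
divisible by `F h(z)`. So a functional equation `c(s) f ^ s = P(s) f ^ (s + 1)` gives the equation
`c(s) ⟨u ^ (M - 1) v⟩_s = ∑_k s ^ k ⟨F ^ a h(z) ^ b q_k⟩_s`, where `f = F ^ a h(z) ^ b u` and `⟨g⟩_s` is the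
mean value of `g` with respect to `∏_{i<j} |x_i - x_j| ^ (2 a s + 1) ∏ x_i ^ (b s) exp(-∑ x_i / l)`. This
mean value is `∑_d l ^ d / d! (L ^ d g)(0)` with the operator
`L = ∑ (x_i ∂_i ∂_i + (b s + 1) ∂_i) + (a s + 1 / 2) ∑_{i ≠ j} (divided difference) x_i ∂_i`, hence a
polynomial in `s` for which the equation holds at all complex numbers `s`; it is multiplicative for the
factors `F`, `h(z)` (with a shift of `s`), and at certain values of the parameters `L` preserves the
ideal of the symmetric polynomials which vanish if `m` of the roots coincide, or are `z`. There the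
right side is zero, but the mean value on the left side is not, for suitable `l` and `v = h(z) ^ e`. -/

namespace Pool.Agent.Results.MP_a2a574_ag.DiscriminantPowers

open Pool.Agent.K3h15.DM Pool.Agent.H628R4.TP

/-- `ν`: for the clusters of `m = i + 2` roots (`Sum.inl i`), `(m - 1) (m + 2) / 2`; for the clusters of
`m = i + 1` roots at `z_j` (`Sum.inr (j, i)`), `m (m + 1) / 2`. -/
def nuD (n r : ℕ) : Fin (n - 1) ⊕ (Fin r × Fin n) → ℕ
  | Sum.inl i => ((i + 1) * (i + 4)) / 2
  | Sum.inr (_, i) => ((i + 1) * (i + 2)) / 2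

/-- `N`: for the clusters of `m = i + 2` roots, `a m (m - 1)`; for the clusters of `m = i + 1` roots at
`z_j`, `a m (m - 1) + b_j m`. -/
def mulD (n r a : ℕ) (b : Fin r → ℕ) : Fin (n - 1) ⊕ (Fin r × Fin n) → ℕ
  | Sum.inl i => a * ((i + 2) * (i + 1))
  | Sum.inr (j, i) => a * ((i + 1) * i) + b j * (i + 1)

/-- **The monodromy conjecture holds for `f = F ^ a * ∏ j, h(z_j) ^ b_j`**, where `F` is the
discriminant of the monic polynomial `h` of degree `n`. Let `c` satisfy a functional equation
`c(s) f ^ s = P(s) f ^ (s + 1)`, for instance, let `c` be the Bernstein-Sato polynomial of `f`.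
(1) The numbers `-(1 / 2 + 1 / m + i) / a`, `2 ≤ m ≤ n`, `0 ≤ i < a`, are roots of `c`. (2) The numbers
`-((m + 1) / 2 + i (m - 1) + i') / (a (m - 1) + b_j)`, where `1 ≤ m ≤ n`, `0 ≤ i ≤ a`, `0 ≤ i' ≤ b_j` and
`i' < b_j` or `m ≥ 2`, `i < a`, are roots of `c`. (3) Every pole `s₀` of the topological zeta function
of `f`, which is a linear combination of products of the factors `1 / (N s + ν)` (the coefficients may
be arbitrary), is a root of `c`. By the theorem of Malgrange and Kashiwara, `exp(2 π i s₀)` is then a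
monodromy eigenvalue of `f`. (The polynomial `F` exists and is unique.) -/
theorem result (n : ℕ) : (∃! F : MvPolynomial (Fin n) ℂ, IsDisc n F) ∧
    ∀ F : MvPolynomial (Fin n) ℂ, IsDisc n F → ∀ (a r : ℕ) (z : Fin r → ℂ) (b : Fin r → ℕ),
    1 ≤ a → Function.Injective z → (∀ j, 1 ≤ b j) → ∀ c : Polynomial ℂ,
    IsBFunction (F ^ a * ∏ j, hz n (z j) ^ b j) c →
    (∀ m i : ℕ, 2 ≤ m → m ≤ n → i < a → c.eval (-(1 / 2 + 1 / (m : ℂ) + i) / a) = 0) ∧
    (∀ (j : Fin r) (m i i' : ℕ), 1 ≤ m → m ≤ n → i ≤ a → i' ≤ b j →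
      (i' < b j ∨ (2 ≤ m ∧ i < a)) →
      c.eval (-(((m : ℂ) + 1) / 2 + i * (m - 1) + i') / (a * (m - 1) + b j)) = 0) ∧
    ∀ (χ : (Fin (n - 1) ⊕ (Fin r × Fin n) → ℕ) →₀ ℂ) (s₀ : ℂ),
      (Zt (nuD n r) (mulD n r a b) χ).denom.eval s₀ = 0 → c.eval s₀ = 0 := by
  refine ⟨disc_unique n, fun F hF a r z b ha hz hb c hc => ?_⟩
  obtain ⟨DD, hDD⟩ := t_DD n
  have hExp : StmExp := t_Exp t_L t_Dl
  have h1 : ∀ m i : ℕ, 2 ≤ m → m ≤ n → i < a →
      c.eval (-(1 / 2 + 1 / (m : ℂ) + i) / a) = 0 := fun m i hm hmn hi =>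
    roots_one hDD t_L t_V1 t_Mat t_Fun hExp t_Pol t_Adj hF z b hc hm hmn hi
  have h2 : ∀ (j : Fin r) (m i i' : ℕ), 1 ≤ m → m ≤ n → i ≤ a → i' ≤ b j →
      (i' < b j ∨ (2 ≤ m ∧ i < a)) →
      c.eval (-(((m : ℂ) + 1) / 2 + i * (m - 1) + i') / (a * (m - 1) + b j)) = 0 :=
    fun j m i i' hm hmn hi hi' hii =>
    roots_two hDD t_L t_V2 t_Mat t_Fun hExp t_Pol t_Adj hF ha z hz b hc (hb j) hm hmn hi hi' hii
  refine ⟨h1, h2, fun χ s₀ hs => ?_⟩
  have ha0 : (a : ℂ) ≠ 0 := by
    have : a ≠ 0 := by omega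
    exact_mod_cast this
  obtain ⟨x, hx, rfl⟩ := pole_Zt _ _ χ (by
    rintro (i | ⟨j, i⟩)
    · have : 2 ≤ ((i : ℕ) + 1) * (i + 4) := by nlinarith
      simp only [nuD]
      omega
    · have : 2 ≤ ((i : ℕ) + 1) * (i + 2) := by nlinarith
      simp only [nuD]
      omega) s₀ hs
  rcases x with i | ⟨j, i⟩
  · have h3 := h1 (i + 2) 0 (by omega) (by omega) (by omega)
    have h4 : ((((i : ℕ) + 1) * (i + 4) / 2 : ℕ) : ℂ) = (((i : ℕ) : ℂ) + 1) * (i + 4) / 2 := by
      have h5 : 2 ∣ ((i : ℕ) + 1) * (i + 4) := by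
        rcases Nat.even_or_odd (i : ℕ) with h | h
        · exact (even_iff_two_dvd.mp (h.add (by decide))).mul_left _
        · exact (even_iff_two_dvd.mp (h.add_odd (by decide))).mul_right _
      rw [Nat.cast_div h5 (by norm_num)]
      push_cast
      ring
    have h6 : (((i : ℕ) : ℂ) + 1) ≠ 0 := Nat.cast_add_one_ne_zero (i : ℕ)
    have h7 : (((i : ℕ) : ℂ) + 2) ≠ 0 := by
      have : (i : ℕ) + 2 ≠ 0 := by omega
      exact_mod_cast this
    have h8 : -((nuD n r (Sum.inl i) : ℕ) : ℂ) / (mulD n r a b (Sum.inl i) : ℕ) =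
        -(1 / 2 + 1 / (((i : ℕ) + 2 : ℕ) : ℂ) + (0 : ℕ)) / a := by
      simp only [nuD, mulD]
      rw [h4]
      push_cast
      field_simp
      ring
    rw [h8]
    exact h3
  · have hbj := hb j
    have h3 := h2 j (i + 1) 0 0 (by omega) (by omega) (by omega) (by omega) (Or.inl (by omega))
    have h4 : ((((i : ℕ) + 1) * (i + 2) / 2 : ℕ) : ℂ) = (((i : ℕ) : ℂ) + 1) * (i + 2) / 2 := by
      have h5 : 2 ∣ ((i : ℕ) + 1) * (i + 2) := by
        rcases Nat.even_or_odd (i : ℕ) with h | h
        · exact (even_iff_two_dvd.mp (h.add (by decide))).mul_left _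
        · exact (even_iff_two_dvd.mp (h.add_odd (by decide))).mul_right _
      rw [Nat.cast_div h5 (by norm_num)]
      push_cast
      ring
    have h6 : (((i : ℕ) : ℂ) + 1) ≠ 0 := Nat.cast_add_one_ne_zero (i : ℕ)
    have h7 : ((a : ℂ) * i + b j) ≠ 0 := by
      have : a * (i : ℕ) + b j ≠ 0 := by omega
      exact_mod_cast this
    have h8 : -((nuD n r (Sum.inr (j, i)) : ℕ) : ℂ) / (mulD n r a b (Sum.inr (j, i)) : ℕ) =
        -((((((i : ℕ) + 1 : ℕ)) : ℂ) + 1) / 2 + (0 : ℕ) * ((((i : ℕ) + 1 : ℕ) : ℂ) - 1) +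
          (0 : ℕ)) / (a * ((((i : ℕ) + 1 : ℕ) : ℂ) - 1) + b j) := by
      simp only [nuD, mulD]
      rw [h4]
      push_cast
      have h9 : (a : ℂ) * ((i + 1) * i) + b j * (i + 1) = (i + 1) * (a * i + b j) := by ring
      have h10 : (a : ℂ) * ((i : ℂ) + 1 - 1) + b j = a * i + b j := by ring
      rw [h9, h10]
      field_simp
      ring
    rw [h8]
    exact h3

end Pool.Agent.Results.MP_a2a574_ag.DiscriminantPowers
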