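import Pool.Agent.K3h64.MH.Mix

set_option autoImplicit false

/-! # The monodromy conjecture for products of powers of forms over products of Hankel determinantal ideals

Let `x_0, …, x_{N - 1}` be the coordinates of the affine space. The Hankel matrices of rank at most `d`
form a closed subset `Σ_d`, `2 d < N`, of dimension `2 d`: the affine cone over the variety of
`d`-secant `(d - 1)`-planes of the rational normal curve of degree `N - 1`. Its ideal `I_{d + 1}` is
generated by the maximal minors of the `(d + 1) × (N - d)` Hankel matrix `(x_{i + j})`. Let `p t`,
`t ∈ T`, be numbers with `2 p t < N`, which are distributed over a finite set `B` of blocks: `t` belongs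
to the block `β t`. Let `M_{t,J}` (`hankel N (p t) J`) be the maximal minors of the
`p t × (N + 1 - p t)` Hankel matrix. For `b ∈ B` let

  `F_b = ∑_J y_{b,J} ∏_{β t = b} M_{t,J t}(x)`,

where `J` runs over the choices of one minor for each `t` in the block `b` and the `y_{b,J}` are further
variables, separate for each `b` (`blkH`, `blockForm`). So `F_b` is the general form over the product
of the ideals `I_{p t}`, `β t = b`. Let `f = ∏ b, F_b ^ a b` (`powProd`).

The resolution. Let `P` be the maximum of the `p t`, and let `Y` be obtained from the affine space by
blowing up `Σ_0 = {0}` and the strict transforms of `Σ_1, …, Σ_{P - 1}`, in this order. It is smooth,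
and the exceptional divisors `E_0, …, E_{P - 1}` cross normally (Bertram; Thaddeus; Vermeire). The
multiplicity of the Jacobian determinant along `E_d` is `ν_d - 1` with `ν_d = N - 2 d`, and `I_p`
becomes the ideal of the divisor `∑_{d < p} (p - d) E_d`. Locally `F_b` is one of the products
`∏ M_{t,J t}` times `y_{b,J} + ∑_{i ≠ J} g_i y_{b,i}`. Hence `Y` times the space of the `y` is an
embedded resolution of `f`, with the components `E_d`, of multiplicity
`∑ t, a (β t) * max (p t - d, 0)`, and, for `a b > 0`, the strict transform of `F_b = 0`, with
multiplicity `a b` and `ν = 1` (`mulB`, `nuB`; in these definitions all `d < (N + 1) / 2` are listed,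
the `d ≥ P` have the multiplicity `0` and do not matter).

The proof: a functional equation of `f` gives a functional equation, with the same `b`, of the
product of the ideals (`locEq_of_powProd`), whose generators are, up to the names of the indices,
those of the product of the ideals `I_{p t}`, each with the exponent `a (β t)`; the `E_d` are Rees
divisors of the latter (`ideal_roots`, with the charts of `Pool.Agent.R779.HK`). The roots
`-(1 + l) / a b` come from the strict transforms. -/

namespace Pool.Agent.Results.MP_a2a574_ag.MixedHankel

open Pool.Agent.H628R4.TP Pool.Agent.TH192.DT Pool.Agent.R779.HK Pool.Agent.K3h64.MH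

/-- **The monodromy conjecture holds for `f = ∏ b, F_b ^ a b`**, `F_b` the general form over the
product of the ideals of the `p t`-minors of the Hankel matrices in `N` variables, `t` in the block
`b`, `2 p t < N`. Let `c` satisfy a functional equation `c(s) f ^ s = P(s) f ^ (s + 1)`, globally or
locally at the origin, for instance, let `c` be the Bernstein-Sato polynomial of `f` or the local one at
the origin. (1) The numbers `-(N - 2 d + l) / N_d`, `0 ≤ l < N_d`, for all `d`, where
`N_d = ∑ t, a (β t) * max (p t - d, 0)`, and `-(1 + l) / a b`, `0 ≤ l < a b`, are roots of `c`. (2) Every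
pole `s₀` of the global topological zeta function of `f`, computed on the resolution described above
(with arbitrary integers `χ` in the place of the Euler characteristics of the strata), is a root of
`c`. By the theorem of Malgrange and Kashiwara, `exp(2 π i s₀)` is then a monodromy eigenvalue of
`f`. -/
theorem result {T B : Type} [Fintype T] [DecidableEq T] [Fintype B] [DecidableEq B] (N : ℕ)
    (p : T → ℕ) (β : T → B) (a : B → ℕ) (hp : ∀ t, 2 * p t < N) (c : Polynomial ℂ)
    (hc : IsBFunction (powProd a (blkH N p β)) c ∨ IsLocalBFunction (powProd a (blkH N p β)) c) :
    (∀ (x : Fin ((N + 1) / 2) ⊕ B) (l : ℕ), l < mulB N p β a x →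
      c.eval (-((nuB N B x : ℂ) + l) / mulB N p β a x) = 0) ∧
    ∀ (χ : Finset (Fin ((N + 1) / 2) ⊕ B) → ℤ) (s₀ : ℂ),
      (topZ (nuB N B) (mulB N p β a) χ).denom.eval s₀ = 0 → c.eval s₀ = 0 := by
  have hd : PowData a (blkH N p β) c := hc.elim
    (fun h => powData_global a _ (blkH_ne N p β hp) c h)
    (fun h => powData_local a _ (blkH_ne N p β hp) c h)
  exact ⟨blk_roots N p β a hp c hd, fun χ s₀ hs => root_of_pole _ _ χ (nuB_pos N B) c
    (blk_roots N p β a hp c hd) s₀ hs⟩

end Pool.Agent.Results.MP_a2a574_ag.MixedHankel
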