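import Pool.Agent.K3h15.RG.Roots
import Pool.Agent.K3h15.RG.DDL
import Pool.Agent.K3h15.RG.Exp
import Pool.Agent.K3h15.RG.Gauss
import Pool.Agent.K3h15.RG.Piola
import Pool.Agent.K3h15.RG.Pol
import Pool.Agent.K3h15.RG.Van
import Pool.Agent.K3h7.DM.Adj

set_option autoImplicit false

/-! # The monodromy conjecture for discriminants of reflection groups with multiplicities

Let `W` be a finite group generated by reflections of the euclidean space `ℝ ^ n`. Its roots of length
one are the vectors `± v_i`, `i ∈ ι` (`IsRoots`), the hyperplanes of the reflections are the zero sets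
of the linear forms `ℓ_i` of the `v_i` (`lf`). Let `θ_1, …, θ_n` be basic invariants (`IsBasic`), so
`θ : ℂ ^ n → ℂ ^ n` is the quotient map by `W` (Chevalley). Let `a_i ≥ 1` be multiplicities which have
the same value on the roots of each orbit (`Orb`). The polynomial `f` with

  `f(θ(x)) = ∏ i, ℓ_i(x) ^ (2 a_i)`

is the product of powers of the irreducible components of the discriminant of `W`: `f = F ^ a` for
the types A, D, E, H, `I_2(m)` with `m` odd, and `f = F_1 ^ a F_2 ^ b` for the types B, `F_4`, `I_2(m)`,
`m` even, where the long and the short roots have the multiplicities `a` and `b`; for reducible groups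
there are more factors. The singularities of `f` are not isolated and not nondegenerate; for `A_2`
and `a = 1` one has the cusp `y_2 ^ 2 + y_1 ^ 3`, for `A_3` the swallowtail, and so on.

The topological zeta function. The wonderful model of the arrangement of the hyperplanes `ℓ_i = 0`
(De Concini–Procesi) has the components `E_I` of the exceptional divisor, where `I` runs through the
irreducible parabolic subsets of `ι` (`IsPar`), and they cross normally. If `r` is the rank of `I`, the
multiplicity of `f ∘ θ` along `E_I` is `N = 2 ∑_{i ∈ I} a_i`, and the Jacobian determinant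
`∏ ℓ_i` of `θ` and the one of the blow up give `ν = r + |I|`. So, by the change of variables formula for
the quotient by the finite group `W` (Denef–Loeser), the topological zeta function of `f` is a linear
combination of products of the factors `1 / (N_I s + ν_I)`; in the statement the coefficients are
arbitrary (`Zt`). The quotient `ν / N` is `1 / 2 + 1 / h` divided by `a`, if all the `a_i` are equal to
`a` and `h` is the Coxeter number of `I`.

The roots of the b-functions. For `κ = a s + 1 / 2` let `⟨p⟩_s` be the mean value of the invariant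
polynomial `p` with respect to `∏ |ℓ_i| ^ (2 κ_i) exp(-|x| ^ 2 / (2 l))`. It is equal to
`∑_d (l / 2) ^ d / d! (L ^ d p)(0)` with Dunkl's Laplacian `L = ∑ ∂_j ∂_j + ∑_i 2 κ_i ℓ_i⁻¹ ∂_{v_i}`, hence
polynomial in `s`, and it satisfies `⟨f ^ k p⟩_s = ⟨f ^ k⟩_s ⟨p⟩_{s + k}`. Partial integration in the
coordinates `y_j = θ_j(x)` turns a functional equation `c(s) e g ^ s = P(s) g ^ (s + 1)`, `g = f u`, into
`c(s) ⟨e u ^ (M - 1)⟩_s = ∑_k s ^ k ⟨f q_k⟩_s`, first for large integers `s`, then for all complex numbers
`s`. At `s = -(r + ∑_I (1 + 2 k_i)) / (2 ∑_I a_i)` the right side vanishes, since `L`, for the shifted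
`κ`, preserves the ideal of the invariants which vanish on the subspace of `I`. The left side is
`c(s) e(0) u(0) ^ (M - 1) + O(l)`, so `c(s) = 0`. For `a_i = 1` and global equations the Bernstein–Sato
polynomial was found by Opdam (1989). -/

namespace Pool.Agent.Results.MP_a2a574_ag.ReflectionDiscriminants

open Pool.Agent.K3h15.RG Pool.Agent.K3h15.DM MvPolynomial

/-- **The monodromy conjecture holds for the products of powers of the components of the
discriminant of a finite real reflection group**, also locally at the origin. Let `± v_i` be the roots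
of the group, `θ` basic invariants, `a_i ≥ 1` multiplicities, constant on the orbits, and `f` the
polynomial with `f(θ(x)) = ∏ i, ℓ_i(x) ^ (2 a_i)` (it exists). Let `u` be a polynomial with `u(0) ≠ 0`
(for instance, `u = 1`), and let `c` satisfy a functional equation
`c(s) e (f u) ^ s = P(s) (f u) ^ (s + 1)`, where `e(0) ≠ 0` (`e = 1`: global functional equations; the
local Bernstein–Sato polynomial of `f u` at `0` satisfies such an equation). (1) For every irreducible
parabolic subset `I` of rank `r` and every `k_i ≤ a_i`, constant on the orbits, with `k_i < a_i` for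
some `i ∈ I`, the number `-(r + ∑_{i ∈ I} (1 + 2 k_i)) / (2 ∑_{i ∈ I} a_i)` is a root of `c`. (2) Every
pole `s₀` of the topological zeta function of `f`, which is a linear combination of products of the
factors `1 / (N_I s + ν_I)`, `ν_I = r + |I|`, `N_I = 2 ∑_{i ∈ I} a_i` (the coefficients may be
arbitrary), is a root of `c`. By the theorem of Malgrange and Kashiwara, `exp(2 π i s₀)` is then a
monodromy eigenvalue of `f`. -/
theorem result {n : ℕ} {ι : Type} [Fintype ι] (v : ι → Fin n → ℝ) (hv : IsRoots v)
    (θ : Fin n → MvPolynomial (Fin n) ℂ) (hθ : IsBasic v θ) (a : ι → ℕ) (ha : ∀ i, 1 ≤ a i)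
    (hO : Orb v a) :
    (∃ f : MvPolynomial (Fin n) ℂ, aeval θ f = Ev v a) ∧
    ∀ f : MvPolynomial (Fin n) ℂ, aeval θ f = Ev v a →
    ∀ u : MvPolynomial (Fin n) ℂ, constantCoeff u ≠ 0 →
    ∀ c : Polynomial ℂ, IsLocB (f * u) c →
    (∀ (I : Finset ι) (r : ℕ), IsPar v I r → ∀ k : ι → ℕ, Orb v k → (∀ i, k i ≤ a i) →
      (∃ i ∈ I, k i < a i) →
      c.eval (-((r : ℂ) + ∑ i ∈ I, (1 + 2 * (k i : ℂ))) / (2 * ∑ i ∈ I, (a i : ℂ))) = 0) ∧
    ∀ (χ : (Par v → ℕ) →₀ ℂ) (s₀ : ℂ),
      (Zt (nuR v) (mulR v a) χ).denom.eval s₀ = 0 → c.eval s₀ = 0 := by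
  refine ⟨?_, fun f hf u hu c hc => ?_⟩
  · obtain ⟨⟨DD, hDD⟩, h⟩ := t_DDL n ι v hv
    exact hθ.2.2.1 _ ((h DD hDD).2.2.1 a hO)
  · have h1 : ∀ (I : Finset ι) (r : ℕ), IsPar v I r → ∀ k : ι → ℕ, Orb v k → (∀ i, k i ≤ a i) →
        (∃ i ∈ I, k i < a i) →
        c.eval (-((r : ℂ) + ∑ i ∈ I, (1 + 2 * (k i : ℂ))) / (2 * ∑ i ∈ I, (a i : ℂ))) = 0 :=
      fun I r hI k hk hka hkI => roots t_Piola t_Gauss (t_Exp t_DDL) t_Pol t_Adj t_DDL
        (t_Van t_DDL) hv hθ ha hO hf hu hc hI hk hka hkI
    exact ⟨h1, fun χ s₀ hs => poles ha h1 χ s₀ hs⟩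

end Pool.Agent.Results.MP_a2a574_ag.ReflectionDiscriminants
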